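import Mathlib.Algebra.Group.Subgroup.Pointwise
import Mathlib.Data.Set.Finite.List
import Mathlib.Analysis.SpecialFunctions.Pow.Real
import Pool.Agent.FullLaws.Growth

/-!
# Permutations of finitely many tracks, and group laws: subexponential growth

Milnor's argument: in a finitely generated group of subexponential growth, an element `z` which
commutes with `g` modulo a normal subgroup whose finitely generated subgroups are finite has a
power which commutes with `g`.
-/

set_option autoImplicit false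

namespace Pool.Agent.Tracks

open Pool.Agent.FullLaws

variable {G : Type} [Group G]

theorem ballL_mul {S : Finset G} {m n : ℕ} {a b : G} (ha : a ∈ ballL S m) (hb : b ∈ ballL S n) :
    a * b ∈ ballL S (m + n) := by
  obtain ⟨l, h1, h2, rfl⟩ := ha
  obtain ⟨l', h1', h2', rfl⟩ := hb
  refine ⟨l ++ l', ?_, ?_, List.prod_append⟩
  · rw [List.length_append]
    omega
  · intro x hx
    rcases List.mem_append.1 hx with hx | hx
    · exact h2 x hx
    · exact h2' x hx

theorem ballL_mono {S : Finset G} {m n : ℕ} (h : m ≤ n) {a : G} (ha : a ∈ ballL S m) :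
    a ∈ ballL S n := by
  obtain ⟨l, h1, h2, h3⟩ := ha
  exact ⟨l, h1.trans h, h2, h3⟩

theorem exists_ballL {S : Finset G} (hS : Subgroup.closure (S : Set G) = ⊤) (g : G) :
    ∃ n, g ∈ ballL S n := by
  have h1 : g ∈ (Subgroup.closure (S : Set G)).toSubmonoid := by
    rw [hS]
    exact Subgroup.mem_top g
  rw [Subgroup.closure_toSubmonoid] at h1
  obtain ⟨l, h2, h3⟩ := Submonoid.exists_list_of_mem_closure h1
  exact ⟨l.length, l, le_rfl, fun x hx => h2 x hx, h3⟩

theorem ballL_finite (S : Finset G) (n : ℕ) : (ballL S n).Finite := by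
  classical
  obtain ⟨T, hT⟩ : ∃ T : Finset G, ∀ x, x ∈ T ↔ x ∈ S ∨ x⁻¹ ∈ S := by
    refine ⟨S ∪ S.image (fun x => x⁻¹), fun x => ?_⟩
    rw [Finset.mem_union, Finset.mem_image]
    constructor
    · rintro (h | ⟨y, hy, rfl⟩)
      · exact Or.inl h
      · exact Or.inr (by rwa [inv_inv])
    · rintro (h | h)
      · exact Or.inl h
      · exact Or.inr ⟨x⁻¹, h, inv_inv x⟩
  refine ((List.finite_length_le {x // x ∈ T} n).image
    (fun l => (List.map Subtype.val l).prod)).subset ?_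
  rintro g ⟨l, h1, h2, rfl⟩
  obtain ⟨l', rfl⟩ : ∃ l' : List {x // x ∈ T}, List.map Subtype.val l' = l := by
    lift l to List {x // x ∈ T} using fun x hx => (hT x).2 (h2 x hx)
    exact ⟨l, rfl⟩
  rw [List.length_map] at h1
  exact ⟨l', h1, rfl⟩

/-- the value of a word in `z` and `z * k` -/
def wd (z k : G) (l : List Bool) : G := (l.map (fun b => z * cond b k 1)).prod

theorem wd_cons (z k : G) (b : Bool) (l : List Bool) :
    wd z k (b :: l) = z * cond b k 1 * wd z k l := by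
  simp [wd]

/-- the group generated by the conjugates `z ^ i * k * z ^ (-i)`, `1 ≤ i ≤ m` -/
def Qm (z k : G) (m : ℕ) : Subgroup G :=
  Subgroup.closure {x | ∃ i : ℕ, 1 ≤ i ∧ i ≤ m ∧ x = z ^ i * k * (z ^ i)⁻¹}

theorem Qm_mono {z k : G} {m n : ℕ} (h : m ≤ n) : Qm z k m ≤ Qm z k n := by
  refine Subgroup.closure_mono ?_
  rintro x ⟨i, h1, h2, h3⟩
  exact ⟨i, h1, h2.trans h, h3⟩

theorem Qm_conj {z k : G} {m : ℕ} {q : G} (hq : q ∈ Qm z k m) : z * q * z⁻¹ ∈ Qm z k (m + 1) := by
  have h1 : Qm z k m ≤ (Qm z k (m + 1)).comap (MulAut.conj z).toMonoidHom := by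
    unfold Qm
    rw [Subgroup.closure_le]
    rintro x ⟨i, h2, h3, rfl⟩
    refine Subgroup.subset_closure ⟨i + 1, by omega, by omega, ?_⟩
    show z * (z ^ i * k * (z ^ i)⁻¹) * z⁻¹ = _
    rw [pow_succ']
    group
  exact h1 hq

theorem wd_mem (z k : G) (l : List Bool) : wd z k l * (z ^ l.length)⁻¹ ∈ Qm z k l.length := by
  induction l with
  | nil =>
    simp only [wd, List.map_nil, List.prod_nil, List.length_nil, pow_zero, inv_one, mul_one]
    exact one_mem _
  | cons b l ih =>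
    have h1 : wd z k (b :: l) * (z ^ (b :: l).length)⁻¹ =
        (z * cond b k 1 * z⁻¹) * (z * (wd z k l * (z ^ l.length)⁻¹) * z⁻¹) := by
      rw [wd_cons, List.length_cons, pow_succ']
      group
    rw [h1, List.length_cons]
    refine mul_mem ?_ (Qm_conj ih)
    cases b with
    | true =>
      refine Subgroup.subset_closure ⟨1, le_rfl, by omega, ?_⟩
      rw [pow_one]
      rfl
    | false =>
      show z * 1 * z⁻¹ ∈ _
      rw [mul_one, mul_inv_cancel]
      exact one_mem _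

theorem mem_of_wd_eq {z k : G} : ∀ (m : ℕ) (l l' : List Bool), l.length = m → l'.length = m →
    l ≠ l' → wd z k l = wd z k l' → k ∈ Qm z k m := by
  intro m
  induction m with
  | zero =>
    intro l l' h1 h2 h3
    rw [List.length_eq_zero_iff] at h1 h2
    exact absurd (h1.trans h2.symm) h3
  | succ m ih =>
    intro l l' h1 h2 h3 h4
    cases l with
    | nil => simp at h1
    | cons b l =>
      cases l' with
      | nil => simp at h2
      | cons b' l' =>
        rw [List.length_cons] at h1 h2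
        have h1' : l.length = m := by omega
        have h2' : l'.length = m := by omega
        rw [wd_cons, wd_cons] at h4
        have hq := wd_mem z k l
        have hq' := wd_mem z k l'
        rw [h1'] at hq
        rw [h2'] at hq'
        have key : ∀ a a' : G, a * (z ^ m)⁻¹ ∈ Qm z k m → a' * (z ^ m)⁻¹ ∈ Qm z k m →
            z * k * a = z * 1 * a' → k ∈ Qm z k (m + 1) := by
          intro a a' ha ha' h
          have h5 : k = (a' * (z ^ m)⁻¹) * (a * (z ^ m)⁻¹)⁻¹ := by
            rw [mul_one, mul_assoc, mul_right_inj] at h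
            rw [← h]
            group
          have h6 := Qm_mono (Nat.le_succ m) (mul_mem ha' (inv_mem ha))
          rwa [← h5] at h6
        cases b <;> cases b' <;> simp only [cond_true, cond_false] at h4
        · refine Qm_mono (Nat.le_succ m) (ih l l' h1' h2' (fun h => h3 (by rw [h])) ?_)
          exact mul_left_cancel h4
        · exact key _ _ hq' hq h4.symm
        · exact key _ _ hq hq' h4
        · refine Qm_mono (Nat.le_succ m) (ih l l' h1' h2' (fun h => h3 (by rw [h])) ?_)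
          exact mul_left_cancel h4

theorem wd_ballL {S : Finset G} {z k : G} {e : ℕ} (h1 : z ∈ ballL S e)
    (h2 : z * k ∈ ballL S e) (l : List Bool) : wd z k l ∈ ballL S (e * l.length) := by
  induction l with
  | nil => exact ⟨[], by simp, by simp, by simp [wd]⟩
  | cons b l ih =>
    rw [wd_cons, List.length_cons]
    have h3 : z * cond b k 1 ∈ ballL S e := by
      cases b with
      | true => exact h2
      | false =>
        show z * 1 ∈ _
        rwa [mul_one]
    have h4 := ballL_mul h3 ih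
    refine ballL_mono (le_of_eq ?_) h4
    ring

/-- subexponential growth -/
def Subexp (S : Finset G) : Prop :=
  ∀ c : ℝ, 1 < c → ∃ N : ℕ, ∀ n ≥ N, ((ballL S n).ncard : ℝ) < c ^ n

theorem ballL_split {S : Finset G} {m n : ℕ} :
    ballL S (m + n) ⊆ (fun p : G × G => p.1 * p.2) '' (ballL S m ×ˢ ballL S n) := by
  rintro g ⟨l, h1, h2, rfl⟩
  refine ⟨((l.take m).prod, (l.drop m).prod), ⟨⟨l.take m, ?_, ?_, rfl⟩, ⟨l.drop m, ?_, ?_, rfl⟩⟩,
    ?_⟩
  · rw [List.length_take]
    exact min_le_left _ _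
  · exact fun x hx => h2 x (List.mem_of_mem_take hx)
  · rw [List.length_drop]
    omega
  · exact fun x hx => h2 x (List.mem_of_mem_drop hx)
  · show (l.take m).prod * (l.drop m).prod = l.prod
    rw [← List.prod_append, List.take_append_drop]

theorem ncard_add_le (S : Finset G) (m n : ℕ) :
    (ballL S (m + n)).ncard ≤ (ballL S m).ncard * (ballL S n).ncard := by
  have hfin := (ballL_finite S m).prod (ballL_finite S n)
  refine (Set.ncard_le_ncard ballL_split (hfin.image _)).trans ?_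
  refine (Set.ncard_image_le hfin).trans ?_
  rw [Set.ncard_prod]

theorem ncard_mul_le (S : Finset G) (m q : ℕ) :
    (ballL S (m * q)).ncard ≤ (ballL S m).ncard ^ q := by
  induction q with
  | zero =>
    rw [mul_zero, pow_zero]
    have h1 : ballL S 0 ⊆ {1} := by
      rintro g ⟨l, h1, -, rfl⟩
      rw [List.eq_nil_of_length_eq_zero (Nat.le_zero.1 h1)]
      rfl
    exact (Set.ncard_le_ncard h1).trans (by rw [Set.ncard_singleton])
  | succ q ih =>
    rw [mul_add, mul_one, pow_succ]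
    exact (ncard_add_le S _ _).trans (Nat.mul_le_mul_right _ ih)

theorem ncard_pos (S : Finset G) (n : ℕ) : 0 < (ballL S n).ncard := by
  rw [Set.ncard_pos (ballL_finite S n)]
  exact ⟨1, [], Nat.zero_le _, by simp, rfl⟩

/-- groups whose growth is not subexponential have exponential growth -/
theorem exp_growth {S : Finset G} (h : ¬ Subexp S) :
    ∃ c : ℝ, 1 < c ∧ ∀ n : ℕ, c ^ n ≤ ((ballL S n).ncard : ℝ) := by
  unfold Subexp at h
  push Not at h
  obtain ⟨c, hc, H⟩ := h
  refine ⟨c, hc, fun m => ?_⟩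
  by_contra hcon
  push Not at hcon
  have hγ : (0 : ℝ) < (ballL S m).ncard := by exact_mod_cast ncard_pos S m
  have hγ1 : (1 : ℝ) ≤ (ballL S m).ncard := by exact_mod_cast ncard_pos S m
  have hm : 0 < m := by
    rcases Nat.eq_zero_or_pos m with rfl | h0
    · rw [pow_zero] at hcon
      linarith
    · exact h0
  obtain ⟨b, hb⟩ : ∃ b : ℝ, b = c ^ m / (ballL S m).ncard := ⟨_, rfl⟩
  have hb1 : 1 < b := by
    rw [hb, one_lt_div hγ]
    exact hcon
  obtain ⟨q₀, hq₀⟩ := pow_unbounded_of_one_lt ((ballL S m).ncard : ℝ) hb1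
  obtain ⟨n, hn, hn'⟩ := H (m * q₀)
  obtain ⟨q, r, hqr, hr⟩ : ∃ q r : ℕ, n = m * q + r ∧ r < m :=
    ⟨n / m, n % m, (Nat.div_add_mod n m).symm, Nat.mod_lt n hm⟩
  have hq : q₀ ≤ q := by
    by_contra hlt
    push Not at hlt
    have h1 : m * (q + 1) ≤ m * q₀ := Nat.mul_le_mul_left m hlt
    rw [mul_add, mul_one] at h1
    omega
  have h1 : (ballL S n).ncard ≤ (ballL S m).ncard ^ (q + 1) := by
    rw [hqr, pow_succ]
    refine (ncard_add_le S _ _).trans (Nat.mul_le_mul (ncard_mul_le S m q) ?_)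
    exact Set.ncard_le_ncard (fun g hg => ballL_mono hr.le hg) (ballL_finite S m)
  have h2 : c ^ (m * q) ≤ c ^ n := pow_le_pow_right₀ hc.le (by omega)
  have h3 : ((ballL S n).ncard : ℝ) ≤ ((ballL S m).ncard : ℝ) ^ (q + 1) := by
    exact_mod_cast h1
  have h4 : b ^ q * ((ballL S m).ncard : ℝ) ^ q = c ^ (m * q) := by
    rw [hb, ← mul_pow, div_mul_cancel₀ _ hγ.ne', ← pow_mul]
  have h5 : b ^ q₀ ≤ b ^ q := pow_le_pow_right₀ hb1.le hq
  have h6 : 0 < ((ballL S m).ncard : ℝ) ^ q := pow_pos hγ q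
  have h7 : b ^ q * ((ballL S m).ncard : ℝ) ^ q ≤
      ((ballL S m).ncard : ℝ) * ((ballL S m).ncard : ℝ) ^ q := by
    rw [h4]
    refine (h2.trans (hn'.trans h3)).trans (le_of_eq ?_)
    rw [pow_succ, mul_comm]
  have h8 := le_of_mul_le_mul_right h7 h6
  linarith

theorem exists_mem_Qm {S : Finset G} (hS : Subgroup.closure (S : Set G) = ⊤) (hsub : Subexp S)
    (z k : G) : ∃ m : ℕ, k ∈ Qm z k m := by
  by_contra hcon
  push Not at hcon
  obtain ⟨e₁, h1⟩ := exists_ballL hS z
  obtain ⟨e₂, h2⟩ := exists_ballL hS (z * k)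
  obtain ⟨e, he⟩ : ∃ e : ℕ, e = max (max e₁ e₂) 1 := ⟨_, rfl⟩
  have he0 : e ≠ 0 := by omega
  have hz : z ∈ ballL S e := ballL_mono (by omega) h1
  have hzk : z * k ∈ ballL S e := ballL_mono (by omega) h2
  have hcard : ∀ m : ℕ, 2 ^ m ≤ (ballL S (e * m)).ncard := by
    intro m
    have h3 : (Set.univ : Set (Fin m → Bool)).ncard ≤ (ballL S (e * m)).ncard := by
      refine Set.ncard_le_ncard_of_injOn (fun f => wd z k (List.ofFn f)) ?_ ?_
        (ballL_finite S _)
      · intro f _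
        have h4 := wd_ballL hz hzk (List.ofFn f)
        rw [List.length_ofFn] at h4
        exact h4
      · intro f _ f' _ h
        by_contra hne
        exact hcon m (mem_of_wd_eq m _ _ List.length_ofFn List.length_ofFn
          (fun h' => hne (List.ofFn_injective h')) h)
    rw [Set.ncard_univ, Nat.card_eq_fintype_card, Fintype.card_fun, Fintype.card_bool,
      Fintype.card_fin] at h3
    exact h3
  obtain ⟨N, hN⟩ := hsub ((2 : ℝ) ^ ((e : ℝ)⁻¹))
    (Real.one_lt_rpow one_lt_two (inv_pos.2 (by positivity)))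
  have h3 := hN (e * N) (Nat.le_mul_of_pos_left N (Nat.pos_of_ne_zero he0))
  rw [pow_mul, Real.rpow_inv_natCast_pow (by norm_num) he0] at h3
  have h4 : ((2 ^ N : ℕ) : ℝ) ≤ ((ballL S (e * N)).ncard : ℝ) := by exact_mod_cast hcard N
  push_cast at h4
  linarith

theorem milnor {S : Finset G} (hS : Subgroup.closure (S : Set G) = ⊤) (hsub : Subexp S)
    {N : Subgroup G} (hN : ∀ T : Set G, T.Finite → T ⊆ N → (Subgroup.closure T : Set G).Finite)
    (hn : N.Normal) {g z : G} (hgz : g * z * g⁻¹ * z⁻¹ ∈ N) :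
    ∃ d : ℕ, 0 < d ∧ g * z ^ d = z ^ d * g := by
  obtain ⟨k, hk⟩ : ∃ k : G, k = g * z * g⁻¹ * z⁻¹ := ⟨_, rfl⟩
  obtain ⟨m, hm⟩ := exists_mem_Qm hS hsub z k
  have hfin : (Qm z k m : Set G).Finite := by
    refine hN _ ?_ ?_
    · refine ((Set.finite_Iic m).image (fun i => z ^ i * k * (z ^ i)⁻¹)).subset ?_
      rintro x ⟨i, -, h2, rfl⟩
      exact ⟨i, h2, rfl⟩
    · rintro x ⟨i, -, -, rfl⟩
      exact hn.conj_mem k (by rw [hk]; exact hgz) _
  -- conjugation by `z⁻¹`
  have hconj : ∀ q ∈ Qm z k m, z⁻¹ * q * z ∈ Qm z k m := by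
    have h1 : Qm z k m ≤ (Qm z k m).comap (MulAut.conj z⁻¹).toMonoidHom := by
      conv_lhs => rw [Qm]
      rw [Subgroup.closure_le]
      rintro x ⟨i, h2, h3, rfl⟩
      show z⁻¹ * (z ^ i * k * (z ^ i)⁻¹) * z⁻¹⁻¹ ∈ Qm z k m
      obtain ⟨j, rfl⟩ := Nat.exists_eq_add_of_le' h2
      have h4 : z⁻¹ * (z ^ (j + 1) * k * (z ^ (j + 1))⁻¹) * z⁻¹⁻¹ = z ^ j * k * (z ^ j)⁻¹ := by
        rw [pow_succ']
        group
      rw [h4]
      rcases Nat.eq_zero_or_pos j with rfl | hj
      · rw [pow_zero, one_mul, inv_one, mul_one]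
        exact hm
      · exact Subgroup.subset_closure ⟨j, hj, by omega, rfl⟩
    intro q hq
    have h2 := h1 hq
    have h3 : z⁻¹ * q * z⁻¹⁻¹ ∈ Qm z k m := h2
    rwa [inv_inv] at h3
  have hmem : ∀ j : ℕ, g * (z ^ j)⁻¹ * g⁻¹ * z ^ j ∈ (Qm z k m : Set G) := by
    intro j
    induction j with
    | zero =>
      simp
    | succ j ih =>
      have h1 : g * (z ^ (j + 1))⁻¹ * g⁻¹ * z ^ (j + 1) =
          z⁻¹ * (k⁻¹ * (g * (z ^ j)⁻¹ * g⁻¹ * z ^ j)) * z := by
        rw [hk, pow_succ z j]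
        group
      rw [h1]
      exact hconj _ (mul_mem (inv_mem hm) ih)
  have : Finite (Qm z k m : Set G) := hfin
  obtain ⟨i, j, hij, h⟩ := Finite.exists_ne_map_eq_of_infinite
    (fun j : ℕ => (⟨_, hmem j⟩ : (Qm z k m : Set G)))
  have key : ∀ i j : ℕ, i < j → g * (z ^ i)⁻¹ * g⁻¹ * z ^ i = g * (z ^ j)⁻¹ * g⁻¹ * z ^ j →
      ∃ d : ℕ, 0 < d ∧ g * z ^ d = z ^ d * g := by
    intro i j hlt h
    obtain ⟨d, rfl⟩ := Nat.exists_eq_add_of_lt hlt
    refine ⟨d + 1, Nat.succ_pos d, ?_⟩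
    have h1 : (z ^ i)⁻¹ * g⁻¹ * z ^ i = (z ^ (i + d + 1))⁻¹ * g⁻¹ * z ^ (i + d + 1) := by
      have h2 : g * ((z ^ i)⁻¹ * g⁻¹ * z ^ i) =
          g * ((z ^ (i + d + 1))⁻¹ * g⁻¹ * z ^ (i + d + 1)) := by
        simpa only [mul_assoc] using h
      exact mul_left_cancel h2
    have h6 : g⁻¹ = (z ^ (d + 1))⁻¹ * g⁻¹ * z ^ (d + 1) := by
      calc g⁻¹ = z ^ i * ((z ^ i)⁻¹ * g⁻¹ * z ^ i) * (z ^ i)⁻¹ := by group
        _ = z ^ i * ((z ^ (i + d + 1))⁻¹ * g⁻¹ * z ^ (i + d + 1)) * (z ^ i)⁻¹ := by rw [h1]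
        _ = (z ^ (d + 1))⁻¹ * g⁻¹ * z ^ (d + 1) := by group
    calc g * z ^ (d + 1) = g * z ^ (d + 1) * g⁻¹ * g := by group
      _ = g * z ^ (d + 1) * ((z ^ (d + 1))⁻¹ * g⁻¹ * z ^ (d + 1)) * g := by rw [← h6]
      _ = z ^ (d + 1) * g := by group
  have h' := congrArg Subtype.val h
  simp only at h'
  rcases lt_or_gt_of_ne hij with hlt | hlt
  · exact key i j hlt h'
  · exact key j i hlt h'.symm

end Pool.Agent.Tracks
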