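import Pool.Agent.Tracks.Quot
import Pool.Agent.Tracks.Milnor
import Pool.Agent.FullLaws.Final

/-!
# Permutations of finitely many tracks, and group laws: the theorem
-/

set_option autoImplicit false

namespace Pool.Agent.Tracks

open Pool.Agent.FullLaws

variable {G X : Type} [Group G] [MulAction G X]

/-- the kernel of the action on the quotient by an invariant equivalence relation -/
def Ker (s : Setoid X) (hinv : ∀ (g : G) (x y : X), s x y → s (g • x) (g • y)) :
    Subgroup G where
  carrier := {k | ∀ x, s x (k • x)}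
  one_mem' := fun x => by rw [one_smul]
  mul_mem' := by
    intro a b ha hb x
    rw [mul_smul]
    exact s.trans (hb x) (ha (b • x))
  inv_mem' := by
    intro a ha x
    have h1 := hinv a⁻¹ _ _ (ha x)
    rw [inv_smul_smul] at h1
    exact s.symm h1

theorem Ker_normal (s : Setoid X) (hinv : ∀ (g : G) (x y : X), s x y → s (g • x) (g • y)) :
    (Ker s hinv).Normal := by
  refine ⟨fun k hk g x => ?_⟩
  have h1 := hinv g _ _ (hk (g⁻¹ • x))
  rw [smul_inv_smul] at h1
  rw [mul_smul, mul_smul]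
  exact h1

/-- finitely generated groups whose orbits have at most `r` elements are finite -/
theorem finite_of_orbits [FaithfulSMul G X] {T : Finset G}
    (hT : Subgroup.closure (T : Set G) = ⊤) (C : X → Set X) {r : ℕ}
    (hC : ∀ x, (C x).Finite ∧ (C x).ncard ≤ r) (hG : ∀ (g : G) (x : X), g • x ∈ C x) :
    Finite G := by
  have hst : ∀ x : X, (MulAction.stabilizer G x).FiniteIndex ∧
      (MulAction.stabilizer G x).index ≤ r := by
    intro x
    have hsub : MulAction.orbit G x ⊆ C x := by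
      rintro _ ⟨g, rfl⟩
      exact hG g x
    have hfin : (MulAction.orbit G x).Finite := (hC x).1.subset hsub
    have hidx : (MulAction.stabilizer G x).index = (MulAction.orbit G x).ncard :=
      MulAction.index_stabilizer G x
    refine ⟨⟨?_⟩, ?_⟩
    · rw [hidx]
      exact Set.ncard_ne_zero_of_mem (MulAction.mem_orbit_self x) hfin
    · rw [hidx]
      exact (Set.ncard_le_ncard hsub (hC x).1).trans (hC x).2
  have h1 := finiteIndex_iInf_of_le hT (fun x : X => MulAction.stabilizer G x) hst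
  have h2 : (⨅ x : X, MulAction.stabilizer G x) = ⊥ := by
    rw [eq_bot_iff]
    intro g hg
    rw [Subgroup.mem_iInf] at hg
    rw [Subgroup.mem_bot]
    apply eq_of_smul_eq_smul (α := X)
    intro x
    rw [one_smul]
    exact hg x
  rw [h2] at h1
  have h3 := h1.index_ne_zero
  rw [Subgroup.index_bot] at h3
  exact (Nat.card_ne_zero.1 h3).2

theorem Ker_locfin [FaithfulSMul G X] (s : Setoid X)
    (hinv : ∀ (g : G) (x y : X), s x y → s (g • x) (g • y)) {r : ℕ}
    (hC : ∀ x, {y | s x y}.Finite ∧ {y | s x y}.ncard ≤ r) (T : Set G) (hT : T.Finite)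
    (hTN : T ⊆ Ker s hinv) : (Subgroup.closure T : Set G).Finite := by
  obtain ⟨T, rfl⟩ := hT.exists_finset_coe
  have hle : Subgroup.closure (T : Set G) ≤ Ker s hinv := by
    rw [Subgroup.closure_le]
    exact hTN
  have : FaithfulSMul (Subgroup.closure (T : Set G)) X := by
    refine ⟨fun {a b} h => ?_⟩
    apply Subtype.ext
    apply eq_of_smul_eq_smul (α := X)
    exact h
  have hgen : Subgroup.closure ((T.preimage (Subtype.val : Subgroup.closure (T : Set G) → G)
      Subtype.val_injective.injOn : Finset (Subgroup.closure (T : Set G))) :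
      Set (Subgroup.closure (T : Set G))) = ⊤ := by
    rw [Finset.coe_preimage]
    exact Subgroup.closure_closure_coe_preimage
  have hfin := finite_of_orbits (X := X) hgen (fun x => {y | s x y}) hC
    (fun g x => hle g.2 x)
  exact Set.toFinite _

/-- a central power of `t` -/
theorem BX_index' {t : G} {N : ℕ} (hN : 0 < N) (hz : ∀ g : G, g * t ^ N = t ^ N * g)
    {col : X → ℤ} (hcol : ∀ x, col (t • x) = col x + 1) (hfin : {x | col x = 0}.Finite) (x : X) :
    (BX (t ^ N) hz x).FiniteIndex ∧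
      (BX (t ^ N) hz x).index ≤ {y | 0 ≤ col y ∧ col y < N}.ncard := by
  have hF := finite_cols hcol hfin 0 N
  have hN' : (0 : ℤ) < N := by exact_mod_cast hN
  have hpow : ∀ (k : ℤ) (y : X), col ((t ^ N) ^ k • y) = col y + N * k := by
    intro k y
    rw [← zpow_natCast t N, ← zpow_mul, col_zpow hcol]
  have hmem : ∀ g : G, (t ^ N) ^ (-(col (g • x) / N)) • g • x ∈ {y | 0 ≤ col y ∧ col y < N} := by
    intro g
    have h1 := Int.emod_nonneg (col (g • x)) hN'.ne'
    have h2 := Int.emod_lt_of_pos (col (g • x)) hN'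
    have h3 := Int.emod_add_mul_ediv (col (g • x)) N
    show 0 ≤ col _ ∧ col _ < N
    rw [hpow]
    constructor <;> linarith
  have : Finite {y | 0 ≤ col y ∧ col y < N} := hF
  have hinj : Function.Injective (fun q : G ⧸ BX (t ^ N) hz x =>
      (⟨_, hmem q.out⟩ : {y | 0 ≤ col y ∧ col y < N})) := by
    intro q q' h
    have h' := congrArg Subtype.val h
    simp only at h'
    rw [← QuotientGroup.out_eq' q, ← QuotientGroup.out_eq' q', QuotientGroup.eq]
    generalize q.out = a at h'
    generalize q'.out = b at h'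
    generalize -(col (a • x) / N) = i at h'
    generalize -(col (b • x) / N) = j at h'
    have hcm : Commute a ((t ^ N) ^ (i - j)) := Commute.zpow_right (hz _) _
    refine ⟨i - j, ?_⟩
    rw [mul_smul, inv_smul_eq_iff, ← mul_smul, hcm.eq, mul_smul, sub_eq_neg_add, zpow_add,
      mul_smul, h', smul_smul, ← zpow_add, neg_add_cancel, zpow_zero, one_smul]
  have hfin' : Finite (G ⧸ BX (t ^ N) hz x) := Finite.of_injective _ hinj
  refine ⟨Subgroup.finiteIndex_of_finite_quotient, ?_⟩
  exact Nat.card_le_card_of_injective _ hinj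

theorem virtually_abelian' [FaithfulSMul G X] {t : G} {N : ℕ} (hN : 0 < N)
    (hz : ∀ g : G, g * t ^ N = t ^ N * g) {col : X → ℤ}
    (hcol : ∀ x, col (t • x) = col x + 1) (hfin : {x | col x = 0}.Finite)
    {S : Finset G} (hS : Subgroup.closure (S : Set G) = ⊤) :
    ∃ A : Subgroup G, A.FiniteIndex ∧ ∀ a ∈ A, ∀ b ∈ A, a * b = b * a := by
  refine ⟨⨅ x : X, BX (t ^ N) hz x,
    finiteIndex_iInf_of_le hS _ (fun x => BX_index' hN hz hcol hfin x), ?_⟩
  intro a ha b hb
  apply eq_of_smul_eq_smul (α := X)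
  intro x
  rw [Subgroup.mem_iInf] at ha hb
  obtain ⟨k, hk⟩ := ha x
  obtain ⟨l, hl⟩ := hb x
  have h1 : Commute a ((t ^ N) ^ l) := Commute.zpow_right (hz a) l
  have h2 : Commute b ((t ^ N) ^ k) := Commute.zpow_right (hz b) k
  rw [mul_smul, mul_smul, hl, hk, ← mul_smul, h1.eq, mul_smul, hk, ← mul_smul b, h2.eq,
    mul_smul, hl, smul_smul, smul_smul, ← zpow_add, ← zpow_add, add_comm]

/-- elements of the kernel have finite order -/
theorem Ker_exp [FaithfulSMul G X] (s : Setoid X)
    (hinv : ∀ (g : G) (x y : X), s x y → s (g • x) (g • y)) {r : ℕ}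
    (hC : ∀ x, {y | s x y}.Finite ∧ {y | s x y}.ncard ≤ r) {k : G} (hk : k ∈ Ker s hinv) :
    k ^ r.factorial = 1 := by
  apply eq_of_smul_eq_smul (α := X)
  intro x
  rw [one_smul]
  obtain ⟨i, hi, j, hj, hij, h⟩ := Finset.exists_ne_map_eq_of_card_lt_of_maps_to
    (s := Finset.range (r + 1)) (t := (hC x).1.toFinset) (f := fun i => k ^ i • x)
    (by
      rw [Finset.card_range, ← Set.ncard_eq_toFinset_card _ (hC x).1]
      exact Nat.lt_succ_of_le (hC x).2)
    (by
      intro i _
      rw [SetLike.mem_coe, Set.Finite.mem_toFinset]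
      exact (Ker s hinv).pow_mem hk i x)
  rw [Finset.mem_range] at hi hj
  have key : ∀ i j : ℕ, i < j → j < r + 1 → k ^ i • x = k ^ j • x →
      k ^ r.factorial • x = x := by
    intro i j hij hj h
    obtain ⟨d, rfl⟩ := Nat.exists_eq_add_of_lt hij
    have h1 : k ^ (d + 1) • x = x := by
      rw [add_assoc, pow_add, mul_smul] at h
      exact (smul_left_cancel _ h).symm
    obtain ⟨m, hm⟩ : d + 1 ∣ r.factorial := Nat.dvd_factorial (Nat.succ_pos d) (by omega)
    rw [hm, pow_mul]
    clear hm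
    induction m with
    | zero => rw [pow_zero, one_smul]
    | succ m ih => rw [pow_succ, mul_smul, h1, ih]
  rcases lt_or_gt_of_ne hij with hlt | hlt
  · exact key i j hlt hj h
  · exact key j i hlt hi h.symm

/-- modulo the kernel the group is virtually abelian -/
theorem quot_abelian {t : G} {col : X → ℤ} (hfin : {x | col x = 0}.Finite)
    (hcol : ∀ x, col (t • x) = col x + 1) {s : Setoid X} (hs : Adm t s)
    (hcomm : ∀ g : G, ∃ d : ℕ, 0 < d ∧ ∀ x : X, s (g • t ^ d • x) (t ^ d • g • x))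
    {S : Finset G} (hS : Subgroup.closure (S : Set G) = ⊤) :
    ∃ A : Subgroup G, A.FiniteIndex ∧ ∀ a ∈ A, ∀ b ∈ A,
      a * b * a⁻¹ * b⁻¹ ∈ Ker s hs.inv := by
  classical
  let _ := actQ (G := G) s hs.inv
  obtain ⟨c, hc1, hc2, -⟩ := hs.exists_col hcol hfin
  obtain ⟨φ, hφ⟩ : ∃ φ : G →* Equiv.Perm (Quotient s), ∀ (g : G) (x : X),
      φ g (Quotient.mk s x) = Quotient.mk s (g • x) :=
    ⟨MulAction.toPermHom G (Quotient s), fun _ _ => rfl⟩
  have hker : ∀ g : G, φ g = 1 → g ∈ Ker s hs.inv := by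
    intro g hg x
    have h1 : φ g (Quotient.mk s x) = Quotient.mk s x := by rw [hg]; rfl
    rw [hφ] at h1
    exact s.symm (Quotient.exact h1)
  have hfaith : FaithfulSMul φ.range (Quotient s) := by
    refine ⟨fun {a b} h => ?_⟩
    apply Subtype.ext
    exact Equiv.ext h
  choose d hd0 hd using hcomm
  obtain ⟨N, hN⟩ : ∃ N : ℕ, N = ∏ g ∈ S, d g := ⟨_, rfl⟩
  have hN0 : 0 < N := by
    rw [hN]
    exact Finset.prod_pos fun g _ => hd0 g
  obtain ⟨ψ, hψ⟩ : ∃ ψ : G →* φ.range, ψ = φ.rangeRestrict := ⟨_, rfl⟩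
  have hψs : Function.Surjective ψ := by
    rw [hψ]
    exact φ.rangeRestrict_surjective
  have hψv : ∀ g : G, (ψ g : Equiv.Perm (Quotient s)) = φ g := by
    intro g
    rw [hψ]
    rfl
  have hS' : Subgroup.closure ((S.image ψ : Finset φ.range) : Set φ.range) = ⊤ := by
    rw [Finset.coe_image, ← MonoidHom.map_closure, hS]
    exact Subgroup.map_top_of_surjective ψ hψs
  have hgen : ∀ g ∈ S, ψ g * ψ t ^ N = ψ t ^ N * ψ g := by
    intro g hg
    obtain ⟨m, hm⟩ : d g ∣ N := by
      rw [hN]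
      exact Finset.dvd_prod_of_mem d hg
    have h1 : Commute (ψ g) (ψ t ^ d g) := by
      rw [← map_pow]
      show ψ g * ψ (t ^ d g) = ψ (t ^ d g) * ψ g
      apply Subtype.ext
      rw [Subgroup.coe_mul, Subgroup.coe_mul, hψv, hψv, ← map_mul, ← map_mul]
      refine Equiv.ext fun q => ?_
      induction q using Quotient.inductionOn with
      | h x =>
        rw [hφ, hφ, mul_smul, mul_smul]
        exact Quotient.sound (hd g x)
    have h3 := h1.pow_right m
    rw [← pow_mul, ← hm] at h3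
    exact h3.eq
  have hcent : ∀ h : φ.range, h * ψ t ^ N = ψ t ^ N * h := by
    intro h
    have h1 : Subgroup.closure ((S.image ψ : Finset φ.range) : Set φ.range) ≤
        Subgroup.centralizer {ψ t ^ N} := by
      rw [Subgroup.closure_le]
      intro y hy
      rw [Finset.coe_image] at hy
      obtain ⟨g, hg, rfl⟩ := hy
      rw [SetLike.mem_coe, Subgroup.mem_centralizer_singleton_iff]
      exact hgen g hg
    rw [hS'] at h1
    exact Subgroup.mem_centralizer_singleton_iff.1 (h1 (Subgroup.mem_top h))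
  obtain ⟨A, hA, hA'⟩ := virtually_abelian' (G := φ.range) (X := Quotient s) (t := ψ t) hN0
    hcent (col := c) (fun q => by
      induction q using Quotient.inductionOn with
      | h x =>
        show c ((ψ t : Equiv.Perm (Quotient s)) (Quotient.mk s x)) = _
        rw [hψv, hφ]
        exact hc1 x) hc2 hS'
  refine ⟨A.comap ψ, ⟨?_⟩, fun a ha b hb => hker _ ?_⟩
  · rw [Subgroup.index_comap_of_surjective A hψs]
    exact hA.index_ne_zero
  have h1 := hA' _ ha _ hb
  rw [← hψv, map_mul, map_mul, map_mul, map_inv, map_inv, h1, mul_inv_cancel_right,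
    mul_inv_cancel]
  rfl

/-- groups satisfying a law: the structure -/
theorem structure_thm [FaithfulSMul G X] (t : G) (col : X → ℤ) (hfin : {x | col x = 0}.Finite)
    (hcol : ∀ x, col (t • x) = col x + 1) (hdisp : ∀ g : G, ∃ D : ℕ, Dsp col D g)
    {S : Finset G} (hS : Subgroup.closure (S : Set G) = ⊤) {w : FreeGroup ℕ} (hw : w ≠ 1)
    (hlaw : ∀ f : ℕ → G, FreeGroup.lift f w = 1) :
    ∃ N A : Subgroup G, N.Normal ∧ A.FiniteIndex ∧
      (∀ T : Set G, T.Finite → T ⊆ N → (Subgroup.closure T : Set G).Finite) ∧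
      (∀ k ∈ N, k ^ ({x | col x = 0}.ncard).factorial = 1) ∧
      ∀ a ∈ A, ∀ b ∈ A, a * b * a⁻¹ * b⁻¹ ∈ N := by
  obtain ⟨L, hL, hne, hlaw'⟩ := exists_alt hw
  obtain ⟨s, hs, hs'⟩ := exists_quot hcol hfin hdisp hL hne (hlaw' G hlaw)
  obtain ⟨A, hA, hA'⟩ := quot_abelian hfin hcol hs hs' hS
  exact ⟨Ker s hs.inv, A, Ker_normal s hs.inv, hA,
    Ker_locfin s hs.inv (hs.finite_class hcol hfin),
    fun k hk => Ker_exp s hs.inv (hs.finite_class hcol hfin) hk, hA'⟩

/-- the theorem -/
theorem main [FaithfulSMul G X] (t : G) (col : X → ℤ) (hfin : {x | col x = 0}.Finite)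
    (hcol : ∀ x, col (t • x) = col x + 1) (hdisp : ∀ g : G, ∃ D : ℕ, Dsp col D g)
    {S : Finset G} (hS : Subgroup.closure (S : Set G) = ⊤) {w : FreeGroup ℕ} (hw : w ≠ 1)
    (hlaw : ∀ f : ℕ → G, FreeGroup.lift f w = 1) (hsub : Subexp S) :
    ∃ A : Subgroup G, A.FiniteIndex ∧ ∀ a ∈ A, ∀ b ∈ A, a * b = b * a := by
  obtain ⟨L, hL, hne, hlaw'⟩ := exists_alt hw
  obtain ⟨s, hs, hs'⟩ := exists_quot hcol hfin hdisp hL hne (hlaw' G hlaw)
  have hcomm : ∀ g : G, ∃ e : ℕ, 0 < e ∧ g * t ^ e = t ^ e * g := by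
    intro g
    obtain ⟨d, hd, h1⟩ := hs' g
    have h2 : g * t ^ d * g⁻¹ * (t ^ d)⁻¹ ∈ Ker s hs.inv := by
      intro x
      have h3 := h1 (g⁻¹ • (t ^ d)⁻¹ • x)
      rw [smul_inv_smul, smul_inv_smul] at h3
      rw [mul_smul, mul_smul, mul_smul]
      exact s.symm h3
    obtain ⟨e, he, h3⟩ := milnor hS hsub
      (Ker_locfin s hs.inv (hs.finite_class hcol hfin)) (Ker_normal s hs.inv) h2
    refine ⟨d * e, Nat.mul_pos hd he, ?_⟩
    rw [pow_mul]
    exact h3
  choose e he0 he using hcomm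
  obtain ⟨N, hN⟩ : ∃ N : ℕ, N = ∏ g ∈ S, e g := ⟨_, rfl⟩
  have hN0 : 0 < N := by
    rw [hN]
    exact Finset.prod_pos fun g _ => he0 g
  have hc : ∀ g : G, g * t ^ N = t ^ N * g := by
    intro g
    have h1 : Subgroup.closure (S : Set G) ≤ Subgroup.centralizer {t ^ N} := by
      rw [Subgroup.closure_le]
      intro g hg
      rw [SetLike.mem_coe, Subgroup.mem_centralizer_singleton_iff]
      obtain ⟨m, hm⟩ : e g ∣ N := by
        rw [hN]
        exact Finset.dvd_prod_of_mem e hg
      have h2 : Commute g (t ^ e g) := he g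
      have h3 := h2.pow_right m
      rw [← pow_mul, ← hm] at h3
      exact h3.eq
    rw [hS] at h1
    exact Subgroup.mem_centralizer_singleton_iff.1 (h1 (Subgroup.mem_top g))
  exact virtually_abelian' (X := X) hN0 hc hcol hfin hS

end Pool.Agent.Tracks
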