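import Pool.Agent.FullLaws.Local

/-!
# Permutations of finitely many tracks, and group laws: the pushing lemma

`G` acts on `X`, `t : G`, and `col : X → ℤ` satisfies `col (t • x) = col x + 1`. `Dsp col D g` says
that `g` changes `col` by at most `D`, `Fixes col a b g` that `g` fixes the points with
`a ≤ col < b`. If `h` with `Dsp col D h` fixes the columns `[col p - ρ, col p - κ)` and maps `p` to
`t ^ e • p`, `e > 0`, where `ρ` is large in terms of `D` and `κ`, then `G` satisfies no law of the
given form.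
-/

set_option autoImplicit false

namespace Pool.Agent.Tracks

open Pool.Agent.FullLaws

section basic

variable {G X : Type} [Group G] [MulAction G X]

/-- `g` changes the column by at most `D` -/
def Dsp (col : X → ℤ) (D : ℕ) (g : G) : Prop := ∀ x, |col (g • x) - col x| ≤ D

/-- `g` fixes the columns `a ≤ c < b` -/
def Fixes (col : X → ℤ) (a b : ℤ) (g : G) : Prop := ∀ x, a ≤ col x → col x < b → g • x = x

variable {col : X → ℤ}

theorem Dsp.mono {D D' : ℕ} {g : G} (h : Dsp col D g) (hD : D ≤ D') : Dsp col D' g :=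
  fun x => (h x).trans (by exact_mod_cast hD)

theorem Dsp.one (D : ℕ) : Dsp col D (1 : G) := fun x => by simp

theorem Dsp.mul {D D' : ℕ} {g h : G} (hg : Dsp col D g) (hh : Dsp col D' h) :
    Dsp col (D + D') (g * h) := by
  intro x
  have h1 := abs_le.1 (hg (h • x))
  have h2 := abs_le.1 (hh x)
  rw [mul_smul, abs_le]
  push_cast
  constructor <;> linarith [h1.1, h1.2, h2.1, h2.2]

theorem Dsp.inv {D : ℕ} {g : G} (hg : Dsp col D g) : Dsp col D g⁻¹ := by
  intro x
  have h1 := hg (g⁻¹ • x)
  rw [smul_inv_smul, abs_sub_comm] at h1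
  exact h1

theorem col_zpow {t : G} (hcol : ∀ x, col (t • x) = col x + 1) (s : ℤ) (x : X) :
    col (t ^ s • x) = col x + s := by
  induction s using Int.induction_on generalizing x with
  | zero => simp
  | succ i ih =>
    rw [zpow_add_one, mul_smul, ih, hcol]
    ring
  | pred i ih =>
    have h1 := hcol (t⁻¹ • x)
    rw [smul_inv_smul] at h1
    rw [zpow_sub_one, mul_smul, ih, h1]
    ring

theorem Dsp.conj {t : G} (hcol : ∀ x, col (t • x) = col x + 1) {D : ℕ} {g : G}
    (hg : Dsp col D g) (s : ℤ) : Dsp col D (t ^ s * g * t ^ (-s)) := by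
  intro x
  have h1 := hg (t ^ (-s) • x)
  rw [mul_smul, mul_smul, col_zpow hcol s]
  rw [col_zpow hcol (-s)] at h1
  have h2 : col (g • t ^ (-s) • x) + s - col x = col (g • t ^ (-s) • x) - (col x + -s) := by ring
  rw [h2]
  exact h1

theorem Fixes.mono {a b a' b' : ℤ} {g : G} (h : Fixes col a b g) (ha : a ≤ a') (hb : b' ≤ b) :
    Fixes col a' b' g := fun x h1 h2 => h x (ha.trans h1) (lt_of_lt_of_le h2 hb)

theorem Fixes.one (a b : ℤ) : Fixes col a b (1 : G) := fun x _ _ => one_smul G x

theorem Fixes.mul {a b : ℤ} {g h : G} (hg : Fixes col a b g) (hh : Fixes col a b h) :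
    Fixes col a b (g * h) := fun x h1 h2 => by rw [mul_smul, hh x h1 h2, hg x h1 h2]

theorem Fixes.inv {a b : ℤ} {g : G} (hg : Fixes col a b g) : Fixes col a b g⁻¹ :=
  fun x h1 h2 => by rw [inv_smul_eq_iff, hg x h1 h2]

/-- conjugation by an element of bounded displacement -/
theorem Fixes.conj' {a b : ℤ} {g h : G} {D : ℕ} (hg : Dsp col D g) (hh : Fixes col a b h) :
    Fixes col (a + D) (b - D) (g * h * g⁻¹) := by
  intro x h1 h2
  have h3 := abs_le.1 (hg.inv x)
  rw [mul_smul, mul_smul, hh _ (by linarith [h3.1]) (by linarith [h3.2]), smul_inv_smul]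

/-- conjugation by a power of `t` -/
theorem Fixes.conj {t : G} (hcol : ∀ x, col (t • x) = col x + 1) {a b : ℤ} {g : G}
    (hg : Fixes col a b g) (s : ℤ) : Fixes col (a + s) (b + s) (t ^ s * g * t ^ (-s)) := by
  intro x h1 h2
  have h3 := col_zpow hcol (-s) x
  rw [mul_smul, mul_smul, hg _ (by linarith) (by linarith), smul_smul, ← zpow_add,
    add_neg_cancel, zpow_zero, one_smul]

/-- pushing a point to the right by conjugates of `h` -/
theorem exists_push {t h : G} (hcol : ∀ x, col (t • x) = col x + 1) {D κ ρ : ℕ} {p : X}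
    {e : ℤ} (he0 : 0 < e) (hh : Dsp col D h)
    (hfix : Fixes col (col p - ρ) (col p - κ) h) (he : h • p = t ^ e • p) (s : ℤ) (E : ℕ)
    {W : ℤ} (hW : W + E * e ≤ ρ) :
    ∃ h₀ : G, Dsp col (E * D) h₀ ∧ h₀ • t ^ s • p = t ^ (s + E * e) • p ∧
      Fixes col (col p + s - W) (col p + s - κ) h₀ := by
  induction E with
  | zero => exact ⟨1, Dsp.one _, by simp, Fixes.one _ _⟩
  | succ E ih =>
    have hE : 0 ≤ (E : ℤ) * e := by positivity
    have hW' : W + E * e ≤ ρ := by
      push_cast at hW
      linarith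
    obtain ⟨h₀, h1, h2, h3⟩ := ih hW'
    obtain ⟨r, hr⟩ : ∃ r : ℤ, r = s + E * e := ⟨_, rfl⟩
    refine ⟨t ^ r * h * t ^ (-r) * h₀, ?_, ?_, ?_⟩
    · exact ((hh.conj hcol r).mul h1).mono (le_of_eq (by ring))
    · rw [mul_smul, h2, ← hr, mul_smul, mul_smul, smul_smul (t ^ (-r)), ← zpow_add,
        neg_add_cancel, zpow_zero, one_smul, he, smul_smul, ← zpow_add, hr]
      congr 2
      push_cast
      ring
    · refine Fixes.mul ?_ h3
      refine (hfix.conj hcol r).mono ?_ ?_
      · rw [hr]
        push_cast at hW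
        linarith
      · rw [hr]
        linarith

end basic

section traj

variable {G X : Type} [Group G] [MulAction G X]

/-- the points of the trajectory before the last one -/
def Pts (lam : ℕ → G) (p : X) : List (ℕ × Bool) → Set X
  | [] => ∅
  | _ :: L => insert (ev lam L • p) (Pts lam p L)

theorem mem_Pts (lam : ℕ → G) (p : X) {L : List (ℕ × Bool)} (hL : L ≠ []) : p ∈ Pts lam p L := by
  induction L with
  | nil => exact absurd rfl hL
  | cons a L ih =>
    cases L with
    | nil => exact Or.inl (by simp [ev])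
    | cons b L => exact Or.inr (ih (by simp))

theorem keep {lam lam' : ℕ → G} {v : ℕ} {h : G} (hne : ∀ u, u ≠ v → lam' u = lam u)
    (hv : lam' v = lam v * h ∨ lam' v = h⁻¹ * lam v) {p : X} (L : List (ℕ × Bool)) :
    (∀ y ∈ Pts lam p L, h • y = y) → (h • ev lam L • p = ev lam L • p ∨ NotHead v L) →
      ev lam' L • p = ev lam L • p ∧ Pts lam' p L = Pts lam p L := by
  induction L with
  | nil => exact fun _ _ => ⟨by simp [ev], rfl⟩
  | cons a L ih =>
    intro h1 h2
    have f1 : h • ev lam L • p = ev lam L • p := h1 _ (Or.inl rfl)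
    obtain ⟨e1, e2⟩ := ih (fun y hy => h1 y (Or.inr hy)) (Or.inl f1)
    refine ⟨?_, ?_⟩
    · rw [ev_cons, ev_cons, mul_smul, mul_smul, e1]
      obtain ⟨u, δ⟩ := a
      by_cases hu : u = v
      · subst hu
        have f2 : h • ev lam ((u, δ) :: L) • p = ev lam ((u, δ) :: L) • p := by
          rcases h2 with h2 | h2
          · exact h2
          · exact absurd rfl h2
        rw [ev_cons, mul_smul] at f2
        have f1' : h⁻¹ • ev lam L • p = ev lam L • p := by rw [inv_smul_eq_iff, f1]
        have f2' : h⁻¹ • letter lam (u, δ) • ev lam L • p = letter lam (u, δ) • ev lam L • p := by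
          rw [inv_smul_eq_iff, f2]
        generalize ev lam L • p = y at f1 f2 f1' f2' ⊢
        cases δ with
        | true =>
          show lam' u • y = lam u • y
          rcases hv with hv | hv
          · rw [hv, mul_smul, f1]
          · rw [hv, mul_smul]
            exact f2'
        | false =>
          show (lam' u)⁻¹ • y = (lam u)⁻¹ • y
          rcases hv with hv | hv
          · rw [hv, mul_inv_rev, mul_smul]
            exact f2'
          · rw [hv, mul_inv_rev, inv_inv, mul_smul, f1]
      · have e : letter lam' (u, δ) = letter lam (u, δ) := by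
          unfold letter
          simp only
          rw [hne u hu]
        rw [e]
    · show insert (ev lam' L • p) (Pts lam' p L) = insert (ev lam L • p) (Pts lam p L)
      rw [e1, e2]

end traj

theorem exists_traj (D κ : ℕ) (L : List (ℕ × Bool)) (hL : Alt L) :
    ∃ ρ K M N : ℕ, ∀ {G X : Type} [Group G] [MulAction G X] (t h : G) (col : X → ℤ) (p : X)
      (e : ℤ), (∀ x, col (t • x) = col x + 1) → 0 < e → Dsp col D h →
      Fixes col (col p - ρ) (col p - κ) h → h • p = t ^ e • p →
      ∃ (lam : ℕ → G) (μ : G) (n : ℤ), (∀ v, Dsp col K (lam v)) ∧ Dsp col M μ ∧ 0 ≤ n ∧ n ≤ N ∧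
        ev lam L • p = μ • t ^ n • p ∧
        ∀ y ∈ Pts lam p L, -(N : ℤ) ≤ col y - col p ∧ col y - col p < n - κ - M := by
  induction L with
  | nil =>
    refine ⟨0, 0, 0, 0, fun t h col p e _ _ _ _ _ => ⟨fun _ => 1, 1, 0, fun v => Dsp.one _,
      Dsp.one _, le_rfl, le_rfl, by simp [ev], ?_⟩⟩
    intro y hy
    exact absurd hy (Set.notMem_empty y)
  | cons a L ih =>
    obtain ⟨ρ, K, M, N, H⟩ := ih hL.tail
    obtain ⟨E, hE⟩ : ∃ E : ℕ, E = κ + 2 * M + K + 1 := ⟨_, rfl⟩
    refine ⟨max ρ (2 * N + M + E * D), K + (2 * M + E * D), K + M, N + E * D + M, ?_⟩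
    intro G X _ _ t h col p e hcol he0 hh hfix he
    have hle1 : (ρ : ℤ) ≤ (max ρ (2 * N + M + E * D) : ℕ) := by exact_mod_cast le_max_left _ _
    have hle2 : ((2 * N + M + E * D : ℕ) : ℤ) ≤ (max ρ (2 * N + M + E * D) : ℕ) := by
      exact_mod_cast le_max_right _ _
    obtain ⟨lam, μ, n, h1, h2, h3, h4, h5, h6⟩ := H t h col p e hcol he0 hh
      (hfix.mono (by linarith) le_rfl) he
    have heD : e ≤ D := by
      have := abs_le.1 (hh p)
      rw [he, col_zpow hcol] at this
      linarith [this.2]
    have hEe : (E : ℤ) * e ≤ E * D := mul_le_mul_of_nonneg_left heD (by positivity)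
    have hE1 : (E : ℤ) ≤ E * e := by nlinarith
    have hE2 : (E : ℤ) = κ + 2 * M + K + 1 := by exact_mod_cast hE
    obtain ⟨h₀, k1, k2, k3⟩ := exists_push hcol he0 hh hfix he n E (W := 2 * N + M) (by
      push_cast at hle2 ⊢
      linarith)
    obtain ⟨v, ε⟩ := a
    have hnh : NotHead v L := hL.notHead
    obtain ⟨g, hg⟩ : ∃ g : G, g = μ * h₀ * μ⁻¹ := ⟨_, rfl⟩
    have hgD : Dsp col (2 * M + E * D) g := by
      rw [hg]
      exact ((h2.mul k1).mul h2.inv).mono (le_of_eq (by ring))
    have hgF : ∀ y ∈ Pts lam p L, g • y = y := by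
      intro y hy
      obtain ⟨y1, y2⟩ := h6 y hy
      rw [hg]
      refine Fixes.conj' h2 k3 y ?_ ?_ <;> linarith
    have hgy : g • ev lam L • p = μ • t ^ (n + E * e) • p := by
      rw [h5, hg, mul_smul, mul_smul, inv_smul_smul, k2]
    have hcy : col (μ • t ^ n • p) - col p ≤ n + M ∧ -(M : ℤ) ≤ col (μ • t ^ n • p) - col p := by
      have h7 := abs_le.1 (h2 (t ^ n • p))
      rw [col_zpow hcol] at h7
      constructor <;> linarith [h7.1, h7.2]
    have hM' : Dsp col (K + M) (letter lam (v, ε) * μ) := by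
      refine Dsp.mul ?_ h2
      cases ε with
      | true => exact h1 v
      | false => exact (h1 v).inv
    obtain ⟨lam', hl1, hl2, hl3, hl4⟩ : ∃ lam' : ℕ → G, (∀ u, u ≠ v → lam' u = lam u) ∧
        (lam' v = lam v * g ∨ lam' v = g⁻¹ * lam v) ∧
        (∀ u, Dsp col (K + (2 * M + E * D)) (lam' u)) ∧
        ∀ y : X, letter lam' (v, ε) • y = letter lam (v, ε) • g • y := by
      cases ε with
      | true =>
        refine ⟨fun u => if u = v then lam v * g else lam u, fun u hu => if_neg hu,
          Or.inl (if_pos rfl), fun u => ?_, fun y => ?_⟩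
        · by_cases hu : u = v
          · simp only [if_pos hu]
            exact (h1 v).mul hgD
          · simp only [if_neg hu]
            exact (h1 u).mono (Nat.le_add_right _ _)
        · show (if v = v then lam v * g else lam v) • y = lam v • g • y
          rw [if_pos rfl, mul_smul]
      | false =>
        refine ⟨fun u => if u = v then g⁻¹ * lam v else lam u, fun u hu => if_neg hu,
          Or.inr (if_pos rfl), fun u => ?_, fun y => ?_⟩
        · by_cases hu : u = v
          · simp only [if_pos hu]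
            exact (hgD.inv.mul (h1 v)).mono (le_of_eq (by ring))
          · simp only [if_neg hu]
            exact (h1 u).mono (Nat.le_add_right _ _)
        · show (if v = v then g⁻¹ * lam v else lam v)⁻¹ • y = (lam v)⁻¹ • g • y
          rw [if_pos rfl, mul_inv_rev, inv_inv, mul_smul]
    obtain ⟨e1, e2⟩ := keep hl1 hl2 L hgF (Or.inr hnh)
    refine ⟨lam', letter lam (v, ε) * μ, n + E * e, hl3, hM', by nlinarith, ?_, ?_, ?_⟩
    · push_cast
      linarith
    · rw [ev_cons, mul_smul, e1, hl4, hgy, mul_smul]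
    · intro y hy
      have hy' : y = μ • t ^ n • p ∨ y ∈ Pts lam p L := by
        rcases hy with hy | hy
        · left
          rw [hy, e1, h5]
        · right
          rw [← e2]
          exact hy
      push_cast
      have hED : 0 ≤ (E : ℤ) * D := by positivity
      rcases hy' with rfl | hy'
      · constructor <;> linarith [hcy.1, hcy.2]
      · obtain ⟨y1, y2⟩ := h6 y hy'
        constructor <;> linarith

/-- the pushing lemma -/
theorem no_push (D κ : ℕ) {L : List (ℕ × Bool)} (hL : Alt L) (hne : L ≠ []) :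
    ∃ ρ : ℕ, ∀ {G X : Type} [Group G] [MulAction G X] (t h : G) (col : X → ℤ) (p : X)
      (e : ℤ), IsLaw G L → (∀ x, col (t • x) = col x + 1) → 0 < e → Dsp col D h →
      Fixes col (col p - ρ) (col p - κ) h → h • p = t ^ e • p → False := by
  obtain ⟨ρ, K, M, N, H⟩ := exists_traj D κ L hL
  refine ⟨ρ, fun {G X} _ _ t h col p e hlaw hcol he0 hh hfix he => ?_⟩
  obtain ⟨lam, μ, n, h1, h2, h3, h4, h5, h6⟩ := H t h col p e hcol he0 hh hfix he
  obtain ⟨-, h7⟩ := h6 p (mem_Pts lam p hne)
  rw [hlaw lam, one_smul] at h5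
  have h8 := abs_le.1 (h2 (t ^ n • p))
  rw [← h5, col_zpow hcol] at h8
  have hκ : (0 : ℤ) ≤ κ := by positivity
  linarith [h8.1]

end Pool.Agent.Tracks
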