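import Pool.Agent.Tracks.Window

/-!
# Permutations of finitely many tracks, and group laws: the maximal quotient

There is an invariant equivalence relation whose classes meet the orbits of `t` in at most one point
such that every element of the group commutes on the quotient with a power of `t`.
-/

set_option autoImplicit false

namespace Pool.Agent.Tracks

open Pool.Agent.FullLaws

variable {G X : Type} [Group G] [MulAction G X]

/-- the action on the quotient -/
abbrev actQ (s : Setoid X) (hinv : ∀ (g : G) (x y : X), s x y → s (g • x) (g • y)) :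
    MulAction G (Quotient s) where
  smul g := Quotient.map (fun x => g • x) (fun x y h => hinv g x y h)
  one_smul q := by
    induction q using Quotient.inductionOn with
    | h x => exact congrArg (Quotient.mk s) (one_smul G x)
  mul_smul g h q := by
    induction q using Quotient.inductionOn with
    | h x => exact congrArg (Quotient.mk s) (mul_smul g h x)

/-- the classes are finite -/
theorem Adm.finite_class {t : G} {s : Setoid X} (hs : Adm t s) {col : X → ℤ}
    (hcol : ∀ x, col (t • x) = col x + 1) (hfin : {x | col x = 0}.Finite) (x : X) :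
    {y | s x y}.Finite ∧ {y | s x y}.ncard ≤ {x | col x = 0}.ncard := by
  have hmaps : Set.MapsTo (fun y => t ^ (-col y) • y) {y | s x y} {x | col x = 0} := by
    intro y _
    show col (t ^ (-col y) • y) = 0
    rw [col_zpow hcol]
    ring
  have hinj : Set.InjOn (fun y => t ^ (-col y) • y) {y | s x y} := by
    intro y hy y' hy' h
    have h1 : t ^ (-col y) • y = t ^ (-col y') • y' := h
    have h2 : y' = t ^ (col y' + -col y) • y := by
      rw [zpow_add, mul_smul, h1, smul_smul, ← zpow_add, add_neg_cancel, zpow_zero, one_smul]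
    have h3 : s y y' := s.trans (s.symm hy) hy'
    rw [h2] at h3
    have h4 := hs.free y _ h3
    rw [h4, zpow_zero, one_smul] at h2
    exact h2.symm
  exact ⟨Set.Finite.of_finite_image (hfin.subset hmaps.image_subset) hinj,
    Set.ncard_le_ncard_of_injOn _ hmaps hinj hfin⟩

/-- a column function on the quotient -/
theorem Adm.exists_col {t : G} {s : Setoid X} (hs : Adm t s) {col : X → ℤ}
    (hcol : ∀ x, col (t • x) = col x + 1) (hfin : {x | col x = 0}.Finite) :
    ∃ c : Quotient s → ℤ, (∀ x, c (Quotient.mk s (t • x)) = c (Quotient.mk s x) + 1) ∧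
      {q | c q = 0}.Finite ∧ ∀ (D : ℕ) (g : G), Dsp col D g →
        ∀ x, |c (Quotient.mk s (g • x)) - c (Quotient.mk s x)| ≤ D := by
  have hex : ∀ q : Quotient s, ∃ y, Quotient.mk s y = q ∧
      ∀ z, Quotient.mk s z = q → col y ≤ col z := by
    intro q
    induction q using Quotient.inductionOn with
    | h x =>
      obtain ⟨y, hy, hmin⟩ := Set.exists_min_image {y | s x y} col
        (hs.finite_class hcol hfin x).1 ⟨x, s.refl x⟩
      exact ⟨y, Quotient.sound (s.symm hy), fun z hz => hmin z (s.symm (Quotient.exact hz))⟩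
  choose m hm hmin using hex
  have hle : ∀ (g : G) (D : ℤ), (∀ x, col (g • x) ≤ col x + D) → ∀ x,
      col (m (Quotient.mk s (g • x))) ≤ col (m (Quotient.mk s x)) + D := by
    intro g D hg x
    refine (hmin (Quotient.mk s (g • x)) (g • m (Quotient.mk s x)) ?_).trans (hg _)
    exact Quotient.sound (hs.inv g _ _ (Quotient.exact (hm (Quotient.mk s x))))
  refine ⟨fun q => col (m q), fun x => ?_, ?_, fun D g hg x => ?_⟩
  · have h1 := hle t 1 (fun x => (hcol x).le) x
    have h2 := hle t⁻¹ (-1) (fun x => by
      have h3 := hcol (t⁻¹ • x)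
      rw [smul_inv_smul] at h3
      linarith) (t • x)
    rw [inv_smul_smul] at h2
    show col (m (Quotient.mk s (t • x))) = col (m (Quotient.mk s x)) + 1
    linarith
  · refine (hfin.image (Quotient.mk s)).subset fun q hq => ⟨m q, hq, hm q⟩
  · have h1 := hle g D (fun x => by linarith [(abs_le.1 (hg x)).2]) x
    have h2 := hle g⁻¹ D (fun x => by linarith [(abs_le.1 (hg.inv x)).2]) (g • x)
    rw [inv_smul_smul] at h2
    show |col (m (Quotient.mk s (g • x))) - col (m (Quotient.mk s x))| ≤ D
    rw [abs_le]
    constructor <;> linarith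

/-- the relation on the quotient, as a relation on `X` -/
theorem le_of_max {t : G} {L : List (ℕ × Bool)} (hL : Alt L) (hne : L ≠ [])
    (hlaw : IsLaw G L) {s : Setoid X} (hs : Adm t s)
    (hmax : ∀ s' : Setoid X, Adm t s' → (∀ x y, s x y → s' x y) → ∀ x y, s' x y → s x y)
    {c : Quotient s → ℤ} {t' : G} (ht' : t' = t ∨ t' = t⁻¹)
    (hc : ∀ x, c (Quotient.mk s (t' • x)) = c (Quotient.mk s x) + 1)
    (hd : ∀ g : G, ∃ D : ℕ, ∀ x, |c (Quotient.mk s (g • x)) - c (Quotient.mk s x)| ≤ D) :
    ∀ p q : Quotient s, @Rl G (Quotient s) _ (actQ s hs.inv) c p q → p = q := by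
  letI := actQ (G := G) s hs.inv
  have hmk : ∀ (g : G) (x : X), g • Quotient.mk s x = Quotient.mk s (g • x) := fun g x => rfl
  have hc' : ∀ q : Quotient s, c (t' • q) = c q + 1 := by
    intro q
    induction q using Quotient.inductionOn with
    | h x => exact hc x
  have hd' : ∀ g : G, ∃ D : ℕ, Dsp c D g := by
    intro g
    obtain ⟨D, hD⟩ := hd g
    refine ⟨D, fun q => ?_⟩
    induction q using Quotient.inductionOn with
    | h x => exact hD x
  obtain ⟨s', hs'⟩ : ∃ s' : Setoid X, ∀ x y, s' x y ↔
      Rl G c (Quotient.mk s x) (Quotient.mk s y) :=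
    ⟨⟨fun x y => Rl G c (Quotient.mk s x) (Quotient.mk s y),
      ⟨fun x => Rl.refl _, fun h => h.symm, fun h h' => h.trans h'⟩⟩, fun x y => Iff.rfl⟩
  have hadm : Adm t s' := by
    refine ⟨fun g x y h => ?_, fun x e h => ?_⟩
    · rw [hs'] at h ⊢
      obtain ⟨D, hD⟩ := hd' g
      exact h.smul hD
    · rw [hs'] at h
      rcases ht' with rfl | rfl
      · exact Rl.zero hL hne hlaw hc' h
      · have h1 : t ^ e = t⁻¹ ^ (-e) := by rw [inv_zpow, zpow_neg, inv_inv]
        rw [h1] at h
        have h2 := Rl.zero hL hne hlaw hc' h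
        omega
  intro p q h
  induction p using Quotient.inductionOn with
  | h x =>
    induction q using Quotient.inductionOn with
    | h y =>
      refine Quotient.sound (hmax s' hadm (fun a b hab => ?_) x y ((hs' x y).2 h))
      rw [hs', show Quotient.mk s a = Quotient.mk s b from Quotient.sound hab]
      exact Rl.refl _

theorem exists_quot {t : G} {col : X → ℤ} (hcol : ∀ x, col (t • x) = col x + 1)
    (hfin : {x | col x = 0}.Finite) (hdisp : ∀ g : G, ∃ D : ℕ, Dsp col D g)
    {L : List (ℕ × Bool)} (hL : Alt L) (hne : L ≠ []) (hlaw : IsLaw G L) :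
    ∃ s : Setoid X, Adm t s ∧ ∀ g : G, ∃ d : ℕ, 0 < d ∧
      ∀ x : X, s (g • t ^ d • x) (t ^ d • g • x) := by
  obtain ⟨s, hs, hmax⟩ := exists_max hcol
  obtain ⟨c, hc1, hc2, hc3⟩ := hs.exists_col hcol hfin
  have hd : ∀ g : G, ∃ D : ℕ, ∀ x, |c (Quotient.mk s (g • x)) - c (Quotient.mk s x)| ≤ D := by
    intro g
    obtain ⟨D, hD⟩ := hdisp g
    exact ⟨D, hc3 D g hD⟩
  have hR := le_of_max hL hne hlaw hs hmax (c := c) (Or.inl rfl) hc1 hd
  have hR' := le_of_max hL hne hlaw hs hmax (c := fun q => -c q) (t' := t⁻¹) (Or.inr rfl)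
    (fun x => by
      have h1 := hc1 (t⁻¹ • x)
      rw [smul_inv_smul] at h1
      show -c (Quotient.mk s (t⁻¹ • x)) = -c (Quotient.mk s x) + 1
      linarith)
    (fun g => by
      obtain ⟨D, hD⟩ := hd g
      refine ⟨D, fun x => ?_⟩
      have h1 := hD x
      have h2 : -c (Quotient.mk s (g • x)) - -c (Quotient.mk s x) =
        -(c (Quotient.mk s (g • x)) - c (Quotient.mk s x)) := by ring
      show |-c (Quotient.mk s (g • x)) - -c (Quotient.mk s x)| ≤ D
      rw [h2, abs_neg]
      exact h1)
  letI := actQ (G := G) s hs.inv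
  have hc' : ∀ q : Quotient s, c (t • q) = c q + 1 := by
    intro q
    induction q using Quotient.inductionOn with
    | h x => exact hc1 x
  refine ⟨s, hs, fun g => ?_⟩
  obtain ⟨D, hD⟩ := hd g
  have hgD : Dsp c D g := by
    intro q
    induction q using Quotient.inductionOn with
    | h x => exact hD x
  obtain ⟨d, h1, h2⟩ := exists_comm hc' hc2 hR hR' hgD
  exact ⟨d, h1, fun x => Quotient.exact (h2 (Quotient.mk s x))⟩

end Pool.Agent.Tracks
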