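import Pool.Agent.Tracks.Push

/-!
# Permutations of finitely many tracks, and group laws: the relation

`Rl G col x y`: `y = h • x` for an `h` of bounded displacement which fixes a long interval of
columns on the left of `x`. It is an invariant equivalence relation, and `Rl x (t ^ e • x)` implies
`e = 0` if `G` satisfies a law.
-/

set_option autoImplicit false

namespace Pool.Agent.Tracks

open Pool.Agent.FullLaws

/-- the relation -/
def Rl (G : Type) {X : Type} [Group G] [MulAction G X] (col : X → ℤ) (x y : X) : Prop :=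
  ∃ D κ : ℕ, ∀ ρ : ℕ, ∃ h : G, Dsp col D h ∧ Fixes col (col x - ρ) (col x - κ) h ∧ h • x = y

variable {G X : Type} [Group G] [MulAction G X] {col : X → ℤ}

theorem Rl.refl (x : X) : Rl G col x x :=
  ⟨0, 0, fun _ => ⟨1, Dsp.one _, Fixes.one _ _, one_smul G x⟩⟩

theorem Rl.symm {x y : X} (h : Rl G col x y) : Rl G col y x := by
  obtain ⟨D, κ, H⟩ := h
  refine ⟨D, κ + D, fun ρ => ?_⟩
  obtain ⟨h, h1, h2, h3⟩ := H (ρ + D)
  have h4 := abs_le.1 (h1 x)
  rw [h3] at h4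
  refine ⟨h⁻¹, h1.inv, h2.inv.mono ?_ ?_, by rw [inv_smul_eq_iff, h3]⟩
  · push_cast
    linarith [h4.1]
  · push_cast
    linarith [h4.2]

theorem Rl.trans {x y z : X} (h : Rl G col x y) (h' : Rl G col y z) : Rl G col x z := by
  obtain ⟨D, κ, H⟩ := h
  obtain ⟨D', κ', H'⟩ := h'
  refine ⟨D' + D, κ + κ' + D, fun ρ => ?_⟩
  obtain ⟨h, h1, h2, h3⟩ := H ρ
  obtain ⟨h', h1', h2', h3'⟩ := H' (ρ + D)
  have h4 := abs_le.1 (h1 x)
  rw [h3] at h4
  refine ⟨h' * h, h1'.mul h1, ?_, by rw [mul_smul, h3, h3']⟩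
  refine Fixes.mul (h2'.mono ?_ ?_) (h2.mono le_rfl ?_)
  · push_cast
    linarith [h4.2]
  · push_cast
    linarith [h4.1]
  · push_cast
    linarith [h4.1]

theorem Rl.smul {x y : X} (h : Rl G col x y) {g : G} {E : ℕ} (hg : Dsp col E g) :
    Rl G col (g • x) (g • y) := by
  obtain ⟨D, κ, H⟩ := h
  refine ⟨E + D + E, κ + 2 * E, fun ρ => ?_⟩
  obtain ⟨h, h1, h2, h3⟩ := H (ρ + 2 * E)
  have h4 := abs_le.1 (hg x)
  refine ⟨g * h * g⁻¹, (hg.mul h1).mul hg.inv, (Fixes.conj' hg h2).mono ?_ ?_, ?_⟩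
  · push_cast
    linarith [h4.1]
  · push_cast
    linarith [h4.2]
  · rw [mul_smul, mul_smul, inv_smul_smul, h3]

theorem Rl.zero {L : List (ℕ × Bool)} (hL : Alt L) (hne : L ≠ []) (hlaw : IsLaw G L) {t : G}
    (hcol : ∀ x, col (t • x) = col x + 1) {x : X} {e : ℤ} (h : Rl G col x (t ^ e • x)) :
    e = 0 := by
  have key : ∀ (x : X) (e : ℤ), Rl G col x (t ^ e • x) → ¬ 0 < e := by
    rintro x e ⟨D, κ, H⟩ he0
    obtain ⟨ρ, hρ⟩ := no_push D κ hL hne
    obtain ⟨h, h1, h2, h3⟩ := H ρ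
    exact hρ t h col x e hlaw hcol he0 h1 h2 h3
  have h1 := key x e h
  have h2 := key (t ^ e • x) (-e) (by
    rw [smul_smul, ← zpow_add, neg_add_cancel, zpow_zero, one_smul]
    exact h.symm)
  omega

/-- an invariant equivalence relation whose classes meet the orbits of `t` in single points -/
structure Adm (t : G) (s : Setoid X) : Prop where
  inv : ∀ (g : G) (x y : X), s x y → s (g • x) (g • y)
  free : ∀ (x : X) (e : ℤ), s x (t ^ e • x) → e = 0

theorem exists_max {t : G} {col : X → ℤ} (hcol : ∀ x, col (t • x) = col x + 1) :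
    ∃ s : Setoid X, Adm t s ∧ ∀ s' : Setoid X, Adm t s' → (∀ x y, s x y → s' x y) →
      ∀ x y, s' x y → s x y := by
  have hbot : Adm t (⊥ : Setoid X) := by
    refine ⟨fun g x y h => ?_, fun x e h => ?_⟩
    · have h1 : x = y := h
      rw [h1]
    · have h1 : x = t ^ e • x := h
      have h2 := col_zpow hcol e x
      rw [← h1] at h2
      linarith
  obtain ⟨m, -, hm⟩ := zorn_le_nonempty₀ {s : Setoid X | Adm t s} (fun c hc hchain y hy => by
    refine ⟨⟨fun a b => ∃ s ∈ c, s a b, ⟨fun a => ⟨y, hy, y.refl a⟩, ?_, ?_⟩⟩, ⟨?_, ?_⟩, ?_⟩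
    · rintro a b ⟨s, hs, h⟩
      exact ⟨s, hs, s.symm h⟩
    · rintro a b d ⟨s, hs, h⟩ ⟨s', hs', h'⟩
      rcases hchain.total hs hs' with hle | hle
      · exact ⟨s', hs', s'.trans (hle h) h'⟩
      · exact ⟨s, hs, s.trans h (hle h')⟩
    · rintro g a b ⟨s, hs, h⟩
      exact ⟨s, hs, (hc hs).inv g a b h⟩
    · rintro a e ⟨s, hs, h⟩
      exact (hc hs).free a e h
    · intro s hs a b h
      exact ⟨s, hs, h⟩) ⊥ hbot
  exact ⟨m, hm.1, fun s' hs' hle x y h => hm.2 hs' (fun a b hab => hle a b hab) h⟩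

end Pool.Agent.Tracks
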