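import Pool.Agent.Tracks.Rel

/-!
# Permutations of finitely many tracks, and group laws: windows

If the relation `Rl` and its mirror image are trivial then an element of displacement at most `D`
which fixes sufficiently many consecutive columns is trivial, and every element commutes with a
power of `t`.
-/

set_option autoImplicit false

namespace Pool.Agent.Tracks

open Pool.Agent.FullLaws

variable {G X : Type} [Group G] [MulAction G X] {col : X → ℤ} {t : G}

theorem finite_cols (hcol : ∀ x, col (t • x) = col x + 1) (hfin : {x | col x = 0}.Finite)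
    (a b : ℤ) : {x | a ≤ col x ∧ col x < b}.Finite := by
  refine ((Set.finite_Ico a b).biUnion
    (fun s _ => hfin.image (fun x => t ^ s • x))).subset ?_
  rintro x ⟨h1, h2⟩
  refine Set.mem_biUnion (show col x ∈ Set.Ico a b from ⟨h1, h2⟩)
    ⟨t ^ (-col x) • x, ?_, ?_⟩
  · show col (t ^ (-col x) • x) = 0
    rw [col_zpow hcol]
    ring
  · show t ^ col x • t ^ (-col x) • x = x
    rw [smul_smul, ← zpow_add, add_neg_cancel, zpow_zero, one_smul]

theorem fix_next (hcol : ∀ x, col (t • x) = col x + 1) (hfin : {x | col x = 0}.Finite)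
    (hR : ∀ x y, Rl G col x y → x = y) (D : ℕ) : ∃ ρ : ℕ, ∀ h : G, Dsp col D h →
      ∀ x, Fixes col (col x - ρ) (col x) h → h • x = x := by
  have hch : ∀ q : X × X, ∃ ρ : ℕ, q.1 ≠ q.2 → ∀ h : G, Dsp col D h →
      Fixes col (col q.1 - ρ) (col q.1) h → h • q.1 ≠ q.2 := by
    intro q
    by_cases hq : q.1 = q.2
    · exact ⟨0, fun h => absurd hq h⟩
    · by_contra hcon
      push Not at hcon
      refine hq (hR _ _ ⟨D, 0, fun ρ => ?_⟩)
      obtain ⟨-, h, h1, h2, h3⟩ := hcon ρ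
      refine ⟨h, h1, ?_, h3⟩
      rw [Nat.cast_zero, sub_zero]
      exact h2
  choose f hf using hch
  obtain ⟨ρ, hρ⟩ := (((hfin.prod (finite_cols hcol hfin (-D) (D + 1))).image f).bddAbove)
  refine ⟨ρ, fun h hh x hx => ?_⟩
  by_contra hne
  obtain ⟨s, hs⟩ : ∃ s : ℤ, s = -col x := ⟨_, rfl⟩
  have hx0 : col (t ^ s • x) = 0 := by
    rw [col_zpow hcol, hs]
    ring
  have hk : (t ^ s * h * t ^ (-s)) • t ^ s • x = t ^ s • h • x := by
    rw [mul_smul, mul_smul, smul_smul (t ^ (-s)), ← zpow_add, neg_add_cancel, zpow_zero,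
      one_smul]
  have hy : col (t ^ s • h • x) = col (h • x) - col x := by
    rw [col_zpow hcol, hs]
    ring
  have hd := abs_le.1 (hh x)
  have hmem : (t ^ s • x, t ^ s • h • x) ∈
      {x | col x = 0} ×ˢ {x : X | -(D : ℤ) ≤ col x ∧ col x < D + 1} := by
    refine ⟨hx0, ?_⟩
    show -(D : ℤ) ≤ col (t ^ s • h • x) ∧ col (t ^ s • h • x) < D + 1
    rw [hy]
    constructor <;> linarith [hd.1, hd.2]
  have h1 : (f (t ^ s • x, t ^ s • h • x) : ℤ) ≤ ρ := by
    exact_mod_cast hρ (Set.mem_image_of_mem f hmem)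
  refine hf (t ^ s • x, t ^ s • h • x) ?_ (t ^ s * h * t ^ (-s)) (hh.conj hcol s) ?_ hk
  · intro heq
    exact hne (smul_left_cancel _ heq).symm
  · refine (hx.conj hcol s).mono ?_ ?_
    · show col x - ρ + s ≤ col (t ^ s • x) - (f (t ^ s • x, t ^ s • h • x) : ℤ)
      rw [hx0]
      linarith
    · show col (t ^ s • x) ≤ _
      rw [hx0]
      linarith

/-- long fixed intervals -/
theorem fix_all (hcol : ∀ x, col (t • x) = col x + 1) (hfin : {x | col x = 0}.Finite)
    (hR : ∀ x y, Rl G col x y → x = y) (hR' : ∀ x y, Rl G (fun x => -col x) x y → x = y)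
    (D : ℕ) : ∃ ρ : ℕ, ∀ h : G, Dsp col D h → ∀ a : ℤ, Fixes col a (a + ρ) h →
      ∀ x : X, h • x = x := by
  obtain ⟨ρ₁, H₁⟩ := fix_next hcol hfin hR D
  have hcol' : ∀ x, -col (t⁻¹ • x) = -col x + 1 := by
    intro x
    have h1 := hcol (t⁻¹ • x)
    rw [smul_inv_smul] at h1
    linarith
  have hfin' : {x | -col x = 0}.Finite := by
    refine hfin.subset fun x hx => ?_
    have h1 : -col x = 0 := hx
    show col x = 0
    linarith
  obtain ⟨ρ₂, H₂⟩ := fix_next (t := t⁻¹) hcol' hfin' hR' D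
  refine ⟨max ρ₁ ρ₂, fun h hh a ha => ?_⟩
  have hle1 : (ρ₁ : ℤ) ≤ (max ρ₁ ρ₂ : ℕ) := by exact_mod_cast le_max_left _ _
  have hle2 : (ρ₂ : ℤ) ≤ (max ρ₁ ρ₂ : ℕ) := by exact_mod_cast le_max_right _ _
  have hh' : Dsp (fun x => -col x) D h := by
    intro x
    have h1 := hh x
    have h2 : -col (h • x) - -col x = -(col (h • x) - col x) := by ring
    rw [h2, abs_neg]
    exact h1
  have hr : ∀ n : ℕ, ∀ x, col x = a + n → h • x = x := by
    intro n
    induction n using Nat.strong_induction_on with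
    | _ n ih =>
      intro x hx
      by_cases hn : (n : ℤ) < (max ρ₁ ρ₂ : ℕ)
      · exact ha x (by omega) (by omega)
      · refine H₁ h hh x (fun y h1 h2 => ?_)
        exact ih (col y - a).toNat (by omega) y (by omega)
  have hl : ∀ n : ℕ, ∀ x, col x = a + (max ρ₁ ρ₂ : ℕ) - 1 - n → h • x = x := by
    intro n
    induction n using Nat.strong_induction_on with
    | _ n ih =>
      intro x hx
      by_cases hn : (n : ℤ) < (max ρ₁ ρ₂ : ℕ)
      · exact ha x (by omega) (by omega)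
      · refine H₂ h hh' x (fun y h1 h2 => ?_)
        have h1' : -col x - ρ₂ ≤ -col y := h1
        have h2' : -col y < -col x := h2
        exact ih (a + (max ρ₁ ρ₂ : ℕ) - 1 - col y).toNat (by omega) y (by omega)
  intro x
  rcases le_total a (col x) with h1 | h1
  · exact hr (col x - a).toNat x (by omega)
  · by_cases h2 : col x ≤ a + (max ρ₁ ρ₂ : ℕ) - 1
    · exact hl (a + (max ρ₁ ρ₂ : ℕ) - 1 - col x).toNat x (by omega)
    · exact hr (col x - a).toNat x (by omega)

/-- every element commutes with a power of `t` -/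
theorem exists_comm (hcol : ∀ x, col (t • x) = col x + 1) (hfin : {x | col x = 0}.Finite)
    (hR : ∀ x y, Rl G col x y → x = y) (hR' : ∀ x y, Rl G (fun x => -col x) x y → x = y)
    {D : ℕ} {g : G} (hg : Dsp col D g) :
    ∃ d : ℕ, 0 < d ∧ ∀ x : X, g • t ^ d • x = t ^ d • g • x := by
  obtain ⟨ρ, H⟩ := fix_all hcol hfin hR hR' (D + D)
  have hA : Finite {x : X // 0 ≤ col x ∧ col x < ρ} := finite_cols hcol hfin 0 ρ
  have hB : Finite {x : X // -(D : ℤ) ≤ col x ∧ col x < ρ + D} :=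
    finite_cols hcol hfin (-D) (ρ + D)
  have hmem : ∀ (n : ℕ) (x : {x : X // 0 ≤ col x ∧ col x < ρ}),
      -(D : ℤ) ≤ col (t ^ (-(n : ℤ)) • g • t ^ (n : ℤ) • (x : X)) ∧
        col (t ^ (-(n : ℤ)) • g • t ^ (n : ℤ) • (x : X)) < ρ + D := by
    intro n x
    have h1 := abs_le.1 (hg (t ^ (n : ℤ) • (x : X)))
    have h2 := x.2
    rw [col_zpow hcol] at h1
    rw [col_zpow hcol]
    constructor <;> linarith [h1.1, h1.2, h2.1, h2.2]
  obtain ⟨n, n', hnn, hF⟩ := Finite.exists_ne_map_eq_of_infinite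
    (fun n : ℕ => fun x : {x : X // 0 ≤ col x ∧ col x < ρ} =>
      (⟨_, hmem n x⟩ : {x : X // -(D : ℤ) ≤ col x ∧ col x < ρ + D}))
  have key : ∀ n n' : ℕ, n < n' → (∀ x : X, 0 ≤ col x → col x < ρ →
      t ^ (-(n : ℤ)) • g • t ^ (n : ℤ) • x = t ^ (-(n' : ℤ)) • g • t ^ (n' : ℤ) • x) →
      ∃ d : ℕ, 0 < d ∧ ∀ x : X, g • t ^ d • x = t ^ d • g • x := by
    intro n n' hlt hE
    obtain ⟨d, rfl⟩ := Nat.exists_eq_add_of_lt hlt
    refine ⟨d + 1, Nat.succ_pos d, ?_⟩
    obtain ⟨k, hk⟩ : ∃ k : G, k = g⁻¹ * (t ^ (-((d + 1 : ℕ) : ℤ)) * g *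
      t ^ (-(-((d + 1 : ℕ) : ℤ)))) := ⟨_, rfl⟩
    have hkD : Dsp col (D + D) k := by
      rw [hk]
      exact hg.inv.mul (hg.conj hcol _)
    have hkF : Fixes col n (n + ρ) k := by
      intro x h1 h2
      have h3 := col_zpow hcol (-(n : ℤ)) x
      have h4 := hE (t ^ (-(n : ℤ)) • x) (by omega) (by omega)
      have e1 : t ^ (n : ℤ) • t ^ (-(n : ℤ)) • x = x := by
        rw [smul_smul, ← zpow_add, add_neg_cancel, zpow_zero, one_smul]
      have e2 : t ^ ((n + d + 1 : ℕ) : ℤ) • t ^ (-(n : ℤ)) • x =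
          t ^ (-(-((d + 1 : ℕ) : ℤ))) • x := by
        rw [smul_smul, ← zpow_add]
        congr 2
        push_cast
        ring
      rw [e1, e2] at h4
      rw [hk, mul_smul, inv_smul_eq_iff, mul_smul, mul_smul]
      have e3 : t ^ (-((d + 1 : ℕ) : ℤ)) • g • t ^ (-(-((d + 1 : ℕ) : ℤ))) • x =
          t ^ (n : ℤ) • t ^ (-((n + d + 1 : ℕ) : ℤ)) • g • t ^ (-(-((d + 1 : ℕ) : ℤ))) • x := by
        rw [smul_smul (t ^ (n : ℤ)), ← zpow_add]
        congr 2
        push_cast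
        ring
      rw [e3, ← h4, smul_smul (t ^ (n : ℤ)), ← zpow_add, add_neg_cancel, zpow_zero, one_smul]
    intro x
    have h5 := H k hkD n hkF x
    rw [hk, mul_smul, inv_smul_eq_iff, mul_smul, mul_smul, neg_neg, zpow_neg, inv_smul_eq_iff,
      zpow_natCast] at h5
    exact h5
  have hF' : ∀ x : X, 0 ≤ col x → col x < ρ →
      t ^ (-(n : ℤ)) • g • t ^ (n : ℤ) • x = t ^ (-(n' : ℤ)) • g • t ^ (n' : ℤ) • x := by
    intro x h1 h2
    have h3 := congrFun hF ⟨x, h1, h2⟩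
    exact congrArg Subtype.val h3
  rcases lt_or_gt_of_ne hnn with h | h
  · exact key n n' h hF'
  · exact key n' n h (fun x h1 h2 => (hF' x h1 h2).symm)

end Pool.Agent.Tracks
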